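import Pool.Agent.MTN.Stmts2

/-! MTN, row PTH (helper49): integers of a number field in `Pts`. -/

set_option autoImplicit false

namespace Pool.Agent.MTN.H49

open Matrix Polynomial NumberField Pool.Agent.MT100 Pool.Agent.MT100G Pool.Agent.MT100A
  Pool.Agent.MT100D Pool.Agent.Helper78_MT Pool.Agent.MTL Pool.Agent.MTN Pool.Agent.MTN.H53

/-- The minimal polynomial over `ℤ` of an integer of `k`: degree and coefficients. -/
theorem minpoly_house (k : Type) [Field k] [NumberField k] (σ : k →+* ℂ) (a : 𝓞 k)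
    (H : ℝ) (hH : house (a : k) ≤ H) (hH1 : 1 ≤ H) :
    ∃ f : ℤ[X], f.Monic ∧ f.natDegree ≤ Module.finrank ℚ k ∧ aeval (σ a) f = 0 ∧
      ∀ i, |(f.coeff i : ℝ)| ≤ H ^ Module.finrank ℚ k *
        ((Module.finrank ℚ k).choose (Module.finrank ℚ k / 2) : ℕ) := by
  have hint : IsIntegral ℤ (a : k) := NumberField.RingOfIntegers.isIntegral_coe a
  have heq : minpoly ℚ (a : k) = (minpoly ℤ (a : k)).map (algebraMap ℤ ℚ) :=
    minpoly.isIntegrallyClosed_eq_field_fractions' ℚ hint
  refine ⟨minpoly ℤ (a : k), minpoly.monic hint, ?_, ?_, ?_⟩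
  · have h1 : (minpoly ℚ (a : k)).natDegree = (minpoly ℤ (a : k)).natDegree := by
      rw [heq]
      exact (minpoly.monic hint).natDegree_map _
    rw [← h1]
    exact minpoly.natDegree_le _
  · have h1 : aeval (a : k) (minpoly ℤ (a : k)) = 0 := minpoly.aeval ℤ (a : k)
    have h2 := congrArg σ h1
    rw [map_zero] at h2
    rw [← h2]
    rw [aeval_def, aeval_def, hom_eval₂]
    congr 1
    exact RingHom.ext_int _ _
  · intro i
    have h1 : ∀ φ : k →+* ℂ, ‖φ (a : k)‖ ≤ H := by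
      intro φ
      refine le_trans ?_ hH
      rw [house_eq_sup']
      have := Finset.le_sup' (fun φ : k →+* ℂ => ‖φ (a : k)‖₊) (Finset.mem_univ φ)
      exact_mod_cast this
    have h2 := NumberField.Embeddings.coeff_bdd_of_norm_le h1 i
    rw [heq, coeff_map] at h2
    rw [max_eq_left hH1] at h2
    refine le_trans (le_of_eq ?_) h2
    show |((minpoly ℤ (a : k)).coeff i : ℝ)| = ‖(((minpoly ℤ (a : k)).coeff i : ℤ) : ℚ)‖
    rw [← Rat.norm_cast_real, Rat.cast_intCast, Real.norm_eq_abs]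

/-- PTH: integers of a number field in `Pts`, if one conjugate is at least the square root of the
house. -/
theorem pth : PthStmt := by
  intro k _ _ σ
  set m := Module.finrank ℚ k with hm
  refine ⟨max 1 (((m.choose (m / 2) : ℕ) : ℝ)), ?_⟩
  intro a hH0 hσ
  set H := house (a : k) with hH
  have hH1 : 1 ≤ H := le_trans (le_max_left _ _) hH0
  have hHC : ((m.choose (m / 2) : ℕ) : ℝ) ≤ H := le_trans (le_max_right _ _) hH0
  obtain ⟨f, hmon, hdeg, hroot, hcoef⟩ := minpoly_house k σ a H le_rfl hH1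
  refine ⟨f, hmon.ne_zero, hdeg, ?_, hroot⟩
  intro i
  refine le_trans (hcoef i) ?_
  have hH0' : (0 : ℝ) ≤ H := le_trans zero_le_one hH1
  have h1 : (H ^ (1 / 2 : ℝ)) ^ (2 * m + 2) ≤ ‖σ a‖ ^ (2 * m + 2) :=
    pow_le_pow_left₀ (Real.rpow_nonneg hH0' _) hσ _
  have h2 : (H ^ (1 / 2 : ℝ)) ^ (2 * m + 2) = H ^ (m + 1) := by
    rw [← Real.rpow_natCast, ← Real.rpow_mul hH0', ← Real.rpow_natCast]
    congr 1
    push_cast
    ring
  rw [h2] at h1
  refine le_trans ?_ h1
  rw [pow_succ]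
  exact mul_le_mul_of_nonneg_left hHC (pow_nonneg hH0' _)

end Pool.Agent.MTN.H49
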